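import Pool.Agent.H574R3.CS.Tasks

set_option autoImplicit false

namespace Pool.Agent.H791R3.CS

open Polynomial Pool.Agent.H574R3.CS

/-- the Artin–Schreier map -/
def AS (K : Type) [Field K] [CharP K 2] : K →+ K where
  toFun W := W ^ 2 + W
  map_zero' := by simp
  map_add' x y := by
    have h2 : (2 : K) = 0 := CharTwo.two_eq_zero
    linear_combination (x * y) * h2

lemma AS_index (K : Type) [Field K] [Finite K] [CharP K 2] : (AS K).range.index = 2 := by
  rw [AddSubgroup.index_range]
  have : ((AS K).ker : Set K) = {0, 1} := by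
    ext x
    simp only [SetLike.mem_coe, AddMonoidHom.mem_ker, Set.mem_insert_iff, Set.mem_singleton_iff]
    have h2 : (2 : K) = 0 := CharTwo.two_eq_zero
    constructor
    · intro h
      have h' : x ^ 2 + x = 0 := h
      have h3 : x * (x - 1) = 0 := by linear_combination h' - x * h2
      rcases mul_eq_zero.mp h3 with h4 | h4
      · left; exact h4
      · right; linear_combination h4
    · rintro (rfl | rfl)
      · simp
      · change (1 : K) ^ 2 + 1 = 0
        linear_combination h2
  have h4 : Nat.card (AS K).ker = Set.ncard ((AS K).ker : Set K) := rfl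
  rw [h4, this]
  exact Set.ncard_pair zero_ne_one

lemma odd_sum (K : Type) [Field K] [Finite K] [CharP K 2] {ι : Type} (s : Finset ι) (f : ι → K)
    (hf : ∀ i ∈ s, f i ∉ (AS K).range) :
    (∑ i ∈ s, f i) ∈ (AS K).range ↔ Even s.card := by
  classical
  induction s using Finset.induction_on with
  | empty => simp
  | insert i s his ih =>
      rw [Finset.sum_insert his, AddSubgroup.add_mem_iff_of_index_two (AS_index K),
        ih (fun j hj => hf j (Finset.mem_insert_of_mem hj)), Finset.card_insert_of_notMem his,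
        Nat.even_add_one]
      have := hf i (Finset.mem_insert_self i s)
      tauto

theorem taskE : TaskE := by
  intro K _ _ hchar hcard a b c d hani
  classical
  haveI : CharP K 2 := by rw [← hchar]; exact ringChar.charP K
  have h2 : (2 : K) = 0 := CharTwo.two_eq_zero
  have ha : a ≠ 0 := by
    intro h
    have := hani 1 0 (by rw [h]; ring)
    exact one_ne_zero this.1
  have hd : d ≠ 0 := by
    intro h
    have := hani 0 1 (by rw [h]; ring)
    exact one_ne_zero this.2
  set r : K[X] := C (a * (b ^ 2 + a * c)) * X ^ 5 + C (b ^ 3 + a ^ 2 * d) * X ^ 4 +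
    C (c ^ 3 + a * d ^ 2) * X + C (d * (c ^ 2 + b * d)) with hr
  have hr0 : r ≠ 0 := by
    intro h
    have h5 : r.coeff 5 = a * (b ^ 2 + a * c) := by
      rw [hr]
      simp only [coeff_add, coeff_C_mul, coeff_X_pow, coeff_X, coeff_C]
      norm_num
    have h4 : r.coeff 4 = b ^ 3 + a ^ 2 * d := by
      rw [hr]
      simp only [coeff_add, coeff_C_mul, coeff_X_pow, coeff_X, coeff_C]
      norm_num
    rw [h, coeff_zero] at h5 h4
    have h5' : b ^ 2 + a * c = 0 := by
      rcases mul_eq_zero.mp h5.symm with h | h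
      · exact absurd h ha
      · exact h
    have h4' : b ^ 3 + a ^ 2 * d = 0 := h4.symm
    have hroot := hani b a (by
      -- a b^3 + b b^2 a + c b a^2 + d a^3
      linear_combination (a * b) * h5' + a * h4')
    exact ha hroot.2
  have hdeg : r.natDegree ≤ 5 := by
    rw [hr]; compute_degree
  obtain ⟨t, ht⟩ : ∃ t, r.eval t ≠ 0 := by
    by_contra hcon
    push Not at hcon
    apply hr0
    apply Polynomial.eq_zero_of_natDegree_lt_card_of_eval_eq_zero' r Finset.univ
    · intro i _; exact hcon i
    · rw [Finset.card_univ]; omega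
  set κ := a * t ^ 3 + b * t ^ 2 + c * t + d with hκ
  have hκ0 : κ ≠ 0 := by
    intro h
    have := hani t 1 (by rw [hκ] at h; linear_combination h)
    exact one_ne_zero this.2
  by_contra hno
  push Not at hno
  have key : ∀ s : K, s ≠ 0 → κ * s ^ 3 ∉ (AS K).range := by
    rintro s hs ⟨W, hW⟩
    have hW' : W ^ 2 + W = κ * s ^ 3 := hW
    obtain ⟨e1, e2⟩ := hno (s * t) s W (by rw [hW', hκ]; ring)
    apply ht
    have h6 : s ^ 5 * r.eval t = 0 := by
      rw [hr]
      simp only [eval_add, eval_mul, eval_C, eval_pow, eval_X]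
      linear_combination ((b * (s * t) ^ 2 + d * s ^ 2) ^ 2) * e1 +
        ((a * (s * t) ^ 2 + c * s ^ 2) ^ 2) * e2 +
        (((a * (s * t) ^ 2 + c * s ^ 2) ^ 2) * ((b * (s * t) ^ 2 + d * s ^ 2) ^ 2) -
          (a * (s * t) + b * s) * (b * d * s ^ 4 * t ^ 2) -
          (c * (s * t) + d * s) * (a * c * s ^ 4 * t ^ 2)) * h2
    rcases mul_eq_zero.mp h6 with h | h
    · exact absurd (pow_eq_zero_iff (by norm_num) |>.mp h) hs
    · exact h
  have hsum : ∑ u : Kˣ, κ * ((u : K)) ^ 3 = 0 := by
    rw [← Finset.mul_sum]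
    have := FiniteField.sum_pow_units K 3
    rw [this, if_neg, mul_zero]
    intro h
    have := Nat.le_of_dvd (by norm_num) h
    omega
  have hodd := odd_sum K (Finset.univ : Finset Kˣ) (fun u => κ * ((u : K)) ^ 3)
    (fun u _ => key u u.ne_zero)
  rw [hsum] at hodd
  have heven : Even (Finset.univ : Finset Kˣ).card := hodd.mp (AddSubgroup.zero_mem _)
  rw [Finset.card_univ, Fintype.card_units] at heven
  have hq : Even (Fintype.card K) := by
    have hdvd : ringChar K ∣ Fintype.card K := by
      rw [hchar]
      exact (CharP.cast_eq_zero_iff K 2 (Fintype.card K)).mp (by simp)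
    rw [hchar] at hdvd
    exact even_iff_two_dvd.mpr hdvd
  obtain ⟨m, hm⟩ := heven
  obtain ⟨n, hn⟩ := hq
  omega

end Pool.Agent.H791R3.CS
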